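import Mathlib

namespace Pool.Agent.Results.MP_cd59f5_co.Anti

open Finset Classical

def R {n : ℕ} (M : SimpleGraph (Fin n)) : Set (Fin n → ℕ) :=
  {d | Antitone d ∧ (∀ i, 1 ≤ d i) ∧
    ∃ G : SimpleGraph (Fin n), (∀ i, (G.neighborSet i).ncard = d i) ∧ M ≤ G}

variable {n : ℕ}

noncomputable def nb (G : SimpleGraph (Fin n)) (v : Fin n) : Finset (Fin n) := {w | G.Adj v w}

theorem nc (G : SimpleGraph (Fin n)) (v : Fin n) : (G.neighborSet v).ncard = #(nb G v) := by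
  rw [← Set.ncard_coe_finset]
  congr 1
  ext
  simp [nb]

noncomputable def F (G : SimpleGraph (Fin n)) (P Q : Fin n → Prop) : Finset (Fin n × Fin n) :=
  {p | P p.1 ∧ Q p.2 ∧ G.Adj p.1 p.2}

theorem mF {G : SimpleGraph (Fin n)} {P Q : Fin n → Prop} {p : Fin n × Fin n} :
    p ∈ F G P Q ↔ P p.1 ∧ Q p.2 ∧ G.Adj p.1 p.2 := by simp [F]

noncomputable def E (G : SimpleGraph (Fin n)) (P Q : Fin n → Prop) : ℕ := #(F G P Q)

theorem E1 (G : SimpleGraph (Fin n)) (P Q : Fin n → Prop) : E G P Q = E G Q P :=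
  card_equiv (Equiv.prodComm _ _) fun p => by simp [mF, G.adj_comm, and_left_comm]

theorem E2 (G : SimpleGraph (Fin n)) (P Q : Fin n → Prop) :
    E G P Q + E G P (fun x => ¬ Q x) = ∑ u, if P u then #(nb G u) else 0 := by
  simp only [E, F, nb, card_filter, Fintype.sum_prod_type, ← sum_add_distrib]
  refine sum_congr rfl fun u _ => ?_
  by_cases h : P u
  · rw [if_pos h]
    exact sum_congr rfl fun v _ => by by_cases q : Q v <;> simp [h, q]
  · simp [h]

theorem E3 {G H : SimpleGraph (Fin n)} (h : ∀ v, (G.neighborSet v).ncard = #(nb H v))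
    (P Q : Fin n → Prop) : E G P Q + E G P (fun x => ¬ Q x) = E H P Q + E H P (fun x => ¬ Q x) := by
  simp only [E2, ← h, nc]

def w (μ : Fin n → Fin n) (k j : ℕ) : ℕ := #{t : Fin n | j ≤ t.1 ∧ k ≤ (μ t).1}

theorem step (μ : Fin n → Fin n) (k : ℕ) (j : Fin n) :
    w μ k j = w μ k (j + 1) + if k ≤ (μ j).1 then 1 else 0 := by
  unfold w
  split_ifs with h
  · rw [← card_insert_of_notMem (a := j) (by simp)]
    congr 1
    ext t
    simp only [mem_filter, mem_univ, true_and, mem_insert]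
    grind
  · refine (congrArg card (Finset.ext fun t => ?_)).trans (add_zero _).symm
    simp only [mem_filter, mem_univ, true_and]
    grind

theorem io {x y : Fin n} : x ∈ Iio y ↔ x.1 < y.1 := mem_Iio

def r (μ : Fin n → Fin n) (k j e : ℕ) (u v : Fin n) : Prop :=
  u.1 < k ∧ v.1 < j ∨ u.1 < k ∧ (μ u).1 < j ∧ v.1 = j ∨
    u.1 = k ∧ k < v.1 ∧ v.1 < j ∧ ((μ v).1 < k ∨ e = 2)

def gr {μ : Fin n → Fin n} (h : μ.Involutive) (k j e : ℕ) : SimpleGraph (Fin n) where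
  Adj u v := u.1 ≠ v.1 ∧ ((μ u).1 = v.1 ∨ r μ k j e u v ∨ r μ k j e v u)
  symm := ⟨fun u v a => ⟨a.1.symm, a.2.imp (fun q => by rw [← Fin.ext q, h u]) Or.symm⟩⟩
  loopless := ⟨fun _ a => a.1 rfl⟩

theorem anti {μ : Fin n → Fin n} (h : μ.Involutive) (h0 : ∀ v, (μ v).1 ≠ v.1) {a b t : Fin n}
    (ab : a.1 ≤ b.1) (t1 : b.1 ≤ t.1) (t2 : (μ t).1 < a.1)
    (gd : ∀ c : Fin n, c.1 = a + 1 → b.1 = a + 2 → (μ c).1 ≤ a) :
    ∃ e, Antitone fun v => #(nb (gr h a b e) v) := by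
  obtain ⟨e, he⟩ : ∃ e, e = 2 ∧ (μ a).1 < a ∧ (∀ v : Fin n, a.1 < v → v.1 < b → a.1 ≤ μ v) ∨
      e = 1 ∧ (a.1 ≤ μ a ∨ ∃ y : Fin n, a.1 < y ∧ y.1 < b ∧ (μ y).1 < a) := by
    by_cases q : a.1 ≤ μ a ∨ ∃ y : Fin n, a.1 < y ∧ y.1 < b ∧ (μ y).1 < a
    · exact ⟨1, .inr ⟨rfl, q⟩⟩
    · push Not at q
      exact ⟨2, .inl ⟨rfl, q⟩⟩
  refine ⟨e, ?_⟩
  have m (v x) : x ∈ nb (gr h a b e) v ↔ v.1 ≠ x.1 ∧ ((μ v).1 = x.1 ∨ r μ a b e v x ∨ r μ a b e x v) := by
    simp only [nb, gr, mem_filter, mem_univ, true_and]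
  simp only [r] at m
  generalize nb (gr h a b e) = N at m
  have iv (v : Fin n) : v.1 = (μ a).1 ↔ (μ v).1 = a.1 := by
    rw [Fin.val_inj, Fin.val_inj, h.eq_iff, eq_comm]
  have h1 (v : Fin n) (p : v.1 < a) : #(N v) = b := by
    have := h0 v
    have : N v = insert (if (μ v).1 < b then b else μ v) ((Iio b).erase v) := by
      ext x
      simp only [m, mem_insert, mem_erase, mem_Iio, ne_eq, Fin.ext_iff, Fin.lt_def]
      split_ifs <;> omega
    rw [this, card_insert_of_notMem (by rw [mem_erase, io]; split_ifs <;> omega),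
      card_erase_of_mem (io.2 (by omega)), Fin.card_Iio]
    omega
  have h2 (v : Fin n) (p : a.1 ≤ v) (q : v.1 < b) : a ≤ #(N v) ∧ #(N v) ≤ b := by
    have u1 := card_le_card (s := Iio a) (t := N v) fun x => by
      simp only [m, mem_Iio, Fin.lt_def]
      omega
    have u2 := (card_le_card (s := N v) (t := insert (μ v) ((Iio b).erase v)) fun x => by
      simp only [m, mem_insert, mem_erase, mem_Iio, ne_eq, Fin.ext_iff, Fin.lt_def]
      omega).trans (card_insert_le _ _)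
    rw [card_erase_of_mem (io.2 q), Fin.card_Iio] at u2
    rw [Fin.card_Iio] at u1
    omega
  have h3 (v : Fin n) (p : a.1 < v) (q : v.1 < b) : #(N v) = a + e := by
    have := h0 v
    have := iv v
    rcases he with ⟨rfl, e1, e2⟩ | ⟨rfl, -⟩
    · have := e2 v p q
      have : N v = insert a (insert (μ v) (Iio a)) := by
        ext x
        simp only [m, mem_insert, mem_Iio, ne_eq, Fin.ext_iff, Fin.lt_def, or_true, and_true]
        omega
      rw [this, card_insert_of_notMem (by rw [mem_insert, io]; omega),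
        card_insert_of_notMem (by rw [io]; omega), Fin.card_Iio]
    · have : N v = insert (if (μ v).1 < a then a else μ v) (Iio a) := by
        ext x
        simp only [m, mem_insert, mem_Iio, ne_eq, Fin.ext_iff, Fin.lt_def]
        split_ifs <;> omega
      rw [this, card_insert_of_notMem (by rw [io]; split_ifs <;> omega), Fin.card_Iio]
  have h4 (q : a.1 + 1 < b) : a + e ≤ #(N a) := by
    have := h0 a
    have k (y : Fin n) (y1 : a.1 ≤ y) (y2 : y ∈ N a) : a + 1 ≤ #(N a) := by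
      rw [← Fin.card_Iio a, ← card_insert_of_notMem (a := y) (by simpa)]
      refine card_le_card (insert_subset y2 fun x => ?_)
      simp only [m, mem_Iio, Fin.lt_def]
      omega
    rcases he with ⟨rfl, e1, e2⟩ | ⟨rfl, e1 | ⟨y, e1⟩⟩
    · obtain ⟨c, hc⟩ : ∃ c : Fin n, c.1 = a + 1 := ⟨⟨a + 1, by omega⟩, rfl⟩
      have := gd c hc
      have := e2 c (by omega) (by omega)
      have := iv c
      obtain ⟨d, hd⟩ : ∃ c : Fin n, c.1 = a + 2 := ⟨⟨a + 2, by omega⟩, rfl⟩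
      refine le_trans ?_ (card_le_card (s := insert d (insert c (Iio a))) fun x => ?_)
      · rw [card_insert_of_notMem (by rw [mem_insert, io]; omega),
          card_insert_of_notMem (by rw [io]; omega), Fin.card_Iio]
      · simp only [m, mem_insert, mem_Iio, Fin.ext_iff, Fin.lt_def, or_true, and_true, true_and]
        omega
    · exact k _ e1 ((m _ _).2 (by omega))
    · exact k y (by omega) ((m _ _).2 (by omega))
  have h5 : #(N b) ≤ a := by
    have := (card_le_card (s := N b) (t := insert (μ b) ((Iio a).erase (μ t))) fun x => by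
      have : x.1 = μ t → (μ x).1 = t := fun q => by rw [Fin.ext q, h t]
      simp only [m, mem_insert, mem_erase, mem_Iio, ne_eq, Fin.ext_iff, Fin.lt_def]
      omega).trans (card_insert_le _ _)
    rw [card_erase_of_mem (io.2 t2), Fin.card_Iio] at this
    omega
  have h6 (v : Fin n) (p : b.1 < v) : #(N v) ≤ 1 := card_le_card (t := {μ v}) fun x => by
    simp only [m, mem_singleton, Fin.ext_iff]
    omega
  have h7 (v : Fin n) : 0 < #(N v) := card_pos.2 ⟨μ v, (m _ _).2 ⟨(h0 v).symm, .inl rfl⟩⟩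
  refine antitone_iff_forall_lt.2 fun u v l => ?_
  have := Fin.lt_def.1 l
  have := h1 u
  have := h1 v
  have := h2 u
  have := h2 v
  have := h3 u
  have := h3 v
  have := h6 v
  have := h7 u
  have : u.1 = a → #(N u) = #(N a) := fun q => by rw [Fin.ext q]
  have : v.1 = b → #(N v) = #(N b) := fun q => by rw [Fin.ext q]
  omega

theorem ml {M N : SimpleGraph (Fin n)} {μ ν : Fin n → Fin n} (hM : ∀ u v, M.Adj u v ↔ μ u = v)
    (hN : ∀ u v, N.Adj u v ↔ ν u = v) (hR : R M ⊆ R N) {k j : ℕ} (kj : k ≤ j)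
    (gd : ∀ c : Fin n, c.1 = k + 1 → j = k + 2 → (μ c).1 ≤ k) : w ν k j ≤ w μ k j := by
  by_cases q : ∃ t : Fin n, j ≤ t.1 ∧ (μ t).1 < k
  swap
  · push Not at q
    exact card_le_card fun t ht => by simpa using ⟨(mem_filter.1 ht).2.1, q t (mem_filter.1 ht).2.1⟩
  obtain ⟨t, t1, t2⟩ := q
  have h : μ.Involutive := fun v => (hM _ _).1 ((hM _ _).2 rfl).symm
  have h0 (v) : (μ v).1 ≠ v.1 := Fin.val_ne_of_ne ((hM _ _).2 rfl).ne'
  lift j to Fin n using by omega
  lift k to Fin n using by omega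
  obtain ⟨e, he⟩ := anti h h0 kj t1 t2 gd
  obtain ⟨-, -, G, g1, g2⟩ := hR (a := fun v => #(nb (gr h k j e) v)) ⟨he, fun v => card_pos.2
    ⟨μ v, by simp [nb, gr, (h0 v).symm]⟩, _, nc _, fun u v a =>
      ⟨Fin.val_ne_of_ne a.ne, .inl (congrArg _ ((hM _ _).1 a))⟩⟩
  have a1 := E3 g1 (·.1 < k) (j.1 ≤ ·.1)
  have a2 := E3 g1 (j.1 ≤ ·.1) (·.1 < k)
  rw [E1 G, E1 (gr ..)] at a1
  have b1 : E G (·.1 < k) (fun x => ¬ j.1 ≤ x.1) ≤ E (gr h k j e) (·.1 < k) (fun x => ¬ j.1 ≤ x.1) :=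
    card_le_card fun p hp => by
      obtain ⟨x, y, z⟩ := mF.1 hp
      exact mF.2 ⟨x, y, Fin.val_ne_of_ne z.ne, .inr (.inl (.inl ⟨x, by omega⟩))⟩
  have b2 : w ν k j ≤ E G (j.1 ≤ ·.1) (fun x => ¬ x.1 < k) :=
    card_le_card_of_injOn (fun t => (t, ν t)) (fun t ht => by
      obtain ⟨-, x, y⟩ := mem_filter.1 ht
      exact mF.2 ⟨x, y.not_gt, g2 ((hN _ _).2 rfl)⟩)
      fun _ _ _ _ q => congrArg Prod.fst q
  have k1 (p : Fin n × Fin n) (x : j.1 ≤ p.1) (y : ¬ p.2.1 < k) (z : (gr h k j e).Adj p.1 p.2) :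
      μ p.1 = p.2 := by
    simp only [gr, r] at z
    omega
  have b3 : E (gr h k j e) (j.1 ≤ ·.1) (fun x => ¬ x.1 < k) ≤ w μ k j :=
    card_le_card_of_injOn Prod.fst (fun p hp => by
      obtain ⟨x, y, z⟩ := mF.1 hp
      exact mem_filter.2 ⟨mem_univ _, x, k1 p x y z ▸ not_lt.1 y⟩) fun p hp q hq s => by
      obtain ⟨x, y, z⟩ := mF.1 hp
      obtain ⟨x', y', z'⟩ := mF.1 hq
      exact Prod.ext s (by rw [← k1 p x y z, ← k1 q x' y' z', s])
  omega

theorem result (n : ℕ) (M N : SimpleGraph (Fin n)) (hM : ∀ v, ∃! u, M.Adj v u)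
    (hN : ∀ v, ∃! u, N.Adj v u) (h1 : R M ⊆ R N) (h2 : R N ⊆ R M) : M = N := by
  choose μ m1 m2 using hM
  choose ν n1 n2 using hN
  have hM (u v) : M.Adj u v ↔ μ u = v := ⟨fun a => (m2 _ _ a).symm, fun e => e ▸ m1 u⟩
  have hN (u v) : N.Adj u v ↔ ν u = v := ⟨fun a => (n2 _ _ a).symm, fun e => e ▸ n1 u⟩
  have a (k j) (kj : k ≤ j) (q : j ≠ k + 2) : w μ k j = w ν k j :=
    (ml hN hM h2 kj fun _ _ e => absurd e q).antisymm (ml hM hN h1 kj fun _ _ e => absurd e q)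
  have b (k j) (kj : k ≤ j) : w μ k j = w ν k j := by
    by_cases q : j = k + 2 ∧ k + 1 < n
    swap
    · exact (ml hN hM h2 kj fun _ _ _ => by omega).antisymm (ml hM hN h1 kj fun _ _ _ => by omega)
    obtain ⟨rfl, q⟩ := q
    have s1 := step μ (k + 1) ⟨_, q⟩
    have s2 := step ν (k + 1) ⟨_, q⟩
    have s3 := step μ k ⟨_, q⟩
    have s4 := step ν k ⟨_, q⟩
    have := a (k + 1) (k + 1) le_rfl (by omega)
    have := a (k + 1) (k + 1 + 1) (by omega) (by omega)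
    have := a k (k + 1) (by omega) (by omega)
    have s5 := ml hN hM h2 kj
    have s6 := ml hM hN h1 kj
    have z (c : Fin n) (e : c.1 = k + 1) : c = ⟨_, q⟩ := Fin.ext e
    grind
  have c (j : Fin n) (k) (kj : k ≤ j.1) : k ≤ (μ j).1 ↔ k ≤ (ν j).1 := by
    have s1 := step μ k j
    have s2 := step ν k j
    rw [b k j kj, b k (j + 1) (by omega)] at s1
    split_ifs at s1 s2 <;> omega
  have d (j : Fin n) (q : (μ j).1 < j) : μ j = ν j := by
    have := c j (μ j + 1) q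
    have := c j (μ j) q.le
    omega
  ext u v
  rw [hM, hN]
  rcases (Fin.val_ne_of_ne (m1 u).ne).lt_or_gt with l | l
  · have e := (hM _ _).1 (m1 u).symm
    rw [(hN _ _).1 ((hN _ _).2 ((d _ (e.symm ▸ l)).symm.trans e)).symm]
  · rw [d u l]

end Pool.Agent.Results.MP_cd59f5_co.Anti
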